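import Mathlib
import Pool.Agent.R485.Mult.Dioph
import Pool.Agent.R485.Mult.Moment

/-! Bilinear sums at a number whose small multiples are not close to the integers. -/

set_option autoImplicit false

open Finset

namespace Pool.Agent.Run7.h566.BL

open Pool.Agent.H469R2.NK (e norm_e e_add e_zero conj_e)

/-- distance to the nearest integer -/
noncomputable def nd (t : ℝ) : ℝ := |t - round t|

lemma nd_le (t : ℝ) (p : ℤ) : nd t ≤ |t - p| := round_le t p

lemma harm (J : ℕ) : ∑ j ∈ Icc 1 J, (1 : ℝ) / j ≤ 1 + Real.log J := by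
  have h3 := harmonic_le_one_add_log J
  rw [harmonic_eq_sum_Icc] at h3
  push_cast at h3
  refine le_trans (le_of_eq ?_) h3
  exact sum_congr rfl fun h _ => by rw [one_div]

/-- separated points on a half line -/
lemma half {ι : Type} (T : Finset ι) (v : ι → ℝ) (η : ℝ) (hη : 0 < η) (hη1 : η ≤ 1)
    (h1 : ∀ i ∈ T, η ≤ v i) (h2 : ∀ i ∈ T, v i ≤ 1 / 2)
    (hs : ∀ i ∈ T, ∀ j ∈ T, i ≠ j → η ≤ |v i - v j|) :
    ∑ i ∈ T, 1 / v i ≤ 1 / η * (1 + Real.log (1 / η)) := by
  classical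
  set f : ι → ℕ := fun i => ⌊v i / η⌋₊ with hf
  set J : ℕ := ⌊1 / η⌋₊ with hJ
  have hfi : ∀ i ∈ T, 1 ≤ f i ∧ (f i : ℝ) ≤ v i / η := by
    intro i hi
    have h3 : 1 ≤ v i / η := by
      rw [le_div_iff₀ hη, one_mul]
      exact h1 i hi
    exact ⟨(Nat.one_le_floor_iff _).2 h3, Nat.floor_le (by linarith)⟩
  have hmap : ∀ i ∈ T, f i ∈ Icc 1 J := by
    intro i hi
    rw [mem_Icc]
    refine ⟨(hfi i hi).1, ?_⟩
    rw [hf, hJ]
    apply Nat.floor_le_floor
    have := h2 i hi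
    gcongr
    linarith
  have hinj : Set.InjOn f T := by
    intro i hi j hj hij
    by_contra hne
    have h3 := hs i hi j hj hne
    have e1 := Nat.floor_le (div_nonneg (hη.le.trans (h1 i hi)) hη.le)
    have e2 := Nat.lt_floor_add_one (v i / η)
    have e3 := Nat.floor_le (div_nonneg (hη.le.trans (h1 j hj)) hη.le)
    have e4 := Nat.lt_floor_add_one (v j / η)
    have e5 : (⌊v i / η⌋₊ : ℝ) = ⌊v j / η⌋₊ := by exact_mod_cast hij
    have h4 : |v i / η - v j / η| < 1 := by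
      rw [abs_lt]
      constructor <;> linarith
    rw [← sub_div, abs_div, abs_of_pos hη, div_lt_one hη] at h4
    linarith
  have hη0 : 0 < 1 / η := by positivity
  calc ∑ i ∈ T, 1 / v i ≤ ∑ i ∈ T, 1 / η * (1 / (f i : ℝ)) := by
        refine sum_le_sum fun i hi => ?_
        obtain ⟨h3, h4⟩ := hfi i hi
        have h5 : (0 : ℝ) < f i := by exact_mod_cast h3
        rw [le_div_iff₀ hη] at h4
        rw [div_mul_div_comm, one_mul]
        apply one_div_le_one_div_of_le (by positivity)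
        linarith
    _ = 1 / η * ∑ i ∈ T, 1 / (f i : ℝ) := by rw [mul_sum]
    _ = 1 / η * ∑ j ∈ T.image f, 1 / (j : ℝ) := by rw [sum_image hinj]
    _ ≤ 1 / η * ∑ j ∈ Icc 1 J, 1 / (j : ℝ) := by
        apply mul_le_mul_of_nonneg_left _ hη0.le
        refine sum_le_sum_of_subset_of_nonneg ?_ fun _ _ _ => by positivity
        intro j hj
        obtain ⟨i, hi, rfl⟩ := mem_image.1 hj
        exact hmap i hi
    _ ≤ 1 / η * (1 + Real.log J) := by
        apply mul_le_mul_of_nonneg_left (harm J) hη0.le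
    _ ≤ 1 / η * (1 + Real.log (1 / η)) := by
        apply mul_le_mul_of_nonneg_left _ hη0.le
        have h1J : 1 ≤ J := (Nat.one_le_floor_iff _).2 (by rw [le_div_iff₀ hη]; linarith)
        have : Real.log J ≤ Real.log (1 / η) :=
          Real.log_le_log (by exact_mod_cast h1J) (Nat.floor_le hη0.le)
        linarith

/-- the sum over separated points modulo one -/
lemma spaced {ι : Type} (T : Finset ι) (u : ι → ℝ) (η : ℝ) (hη : 0 < η) (hη1 : η ≤ 1)
    (h0 : ∀ i ∈ T, ∀ p : ℤ, η ≤ |u i - p|)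
    (hs : ∀ i ∈ T, ∀ j ∈ T, i ≠ j → ∀ p : ℤ, η ≤ |u i - u j - p|) :
    ∑ i ∈ T, 1 / nd (u i) ≤ 2 * (1 / η * (1 + Real.log (1 / η))) := by
  classical
  set v : ι → ℝ := fun i => u i - round (u i) with hv
  have hv1 : ∀ i, |v i| ≤ 1 / 2 := fun i => abs_sub_round (u i)
  have hv0 : ∀ i ∈ T, η ≤ |v i| := fun i hi => h0 i hi (round (u i))
  have hvs : ∀ i ∈ T, ∀ j ∈ T, i ≠ j → η ≤ |v i - v j| := by
    intro i hi j hj hij
    have h1 := hs i hi j hj hij (round (u i) - round (u j))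
    have e1 : u i - u j - ((round (u i) - round (u j) : ℤ) : ℝ) = v i - v j := by
      rw [hv]; push_cast; ring
    rwa [e1] at h1
  have hsplit : ∑ i ∈ T, 1 / nd (u i) = ∑ i ∈ T.filter (fun i => 0 ≤ v i), 1 / nd (u i) +
      ∑ i ∈ T.filter (fun i => ¬ 0 ≤ v i), 1 / nd (u i) := (sum_filter_add_sum_filter_not _ _ _).symm
  rw [hsplit, two_mul]
  apply add_le_add
  · have h1 := half (T.filter (fun i => 0 ≤ v i)) v η hη hη1
      (fun i hi => by
        rw [mem_filter] at hi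
        have := hv0 i hi.1
        rwa [abs_of_nonneg hi.2] at this)
      (fun i hi => (le_abs_self _).trans (hv1 i))
      (fun i hi j hj hij => hvs i (mem_filter.1 hi).1 j (mem_filter.1 hj).1 hij)
    refine le_trans (le_of_eq (sum_congr rfl fun i hi => ?_)) h1
    rw [mem_filter] at hi
    unfold nd
    rw [abs_of_nonneg hi.2]
  · have h1 := half (T.filter (fun i => ¬ 0 ≤ v i)) (fun i => -v i) η hη hη1
      (fun i hi => by
        rw [mem_filter] at hi
        have := hv0 i hi.1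
        rwa [abs_of_neg (not_le.1 hi.2)] at this)
      (fun i hi => (neg_le_abs _).trans (hv1 i))
      (fun i hi j hj hij => by
        have := hvs i (mem_filter.1 hi).1 j (mem_filter.1 hj).1 hij
        rw [← abs_neg] at this
        convert this using 2
        ring)
    refine le_trans (le_of_eq (sum_congr rfl fun i hi => ?_)) h1
    rw [mem_filter] at hi
    unfold nd
    rw [abs_of_neg (not_le.1 hi.2)]

lemma geo (θ : ℝ) (M : ℕ) (h : 0 < nd θ) : ‖∑ m ∈ range M, e (m * θ)‖ ≤ 4 / nd θ := by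
  have h1 := Pool.Agent.R485.Mult.geom θ (nd θ / 2) (by positivity) (fun P => by
    have := nd_le θ P
    linarith) 0 0 M
  have h2 : ∑ m ∈ range M, e (0 + (((0 : ℤ) : ℝ) + m) * θ) = ∑ m ∈ range M, e (m * θ) :=
    sum_congr rfl fun m _ => by
      congr 1
      push_cast
      ring
  rw [h2] at h1
  refine h1.trans (le_of_eq ?_)
  field_simp
  norm_num

/-- **Bilinear sums.** -/
theorem bil (M N R h : ℕ) (β η : ℝ) (hη : 0 < η) (hη1 : η ≤ 1)
    (hβ : ∀ r : ℕ, 0 < r → r < R → ∀ p : ℤ, η ≤ |(r : ℝ) * β - p|) (hh : 1 ≤ h)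
    (hR : h * N ≤ R) (A B : Finset ℕ) (hA : A ⊆ range M) (hB : B ⊆ range N) (x y : ℕ → ℝ) :
    ‖∑ z ∈ A ×ˢ B, e (h * ((z.1 * z.2 : ℝ) * β + x z.1 + y z.2))‖ ^ 2 ≤
      (A.card : ℝ) * B.card * (M + 8 * (1 / η * (1 + Real.log (1 / η)))) := by
  classical
  set L : ℝ := 1 / η * (1 + Real.log (1 / η)) with hL
  set c : ℕ → ℂ := fun b => e (h * y b) with hc
  set F : ℕ → ℂ := fun a => ∑ b ∈ B, c b * e (a * (h * b * β)) with hF
  have hsum : ∑ z ∈ A ×ˢ B, e (h * ((z.1 * z.2 : ℝ) * β + x z.1 + y z.2)) =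
      ∑ a ∈ A, e (h * x a) * F a := by
    rw [sum_product]
    refine sum_congr rfl fun a _ => ?_
    rw [hF]
    simp only
    rw [mul_sum]
    refine sum_congr rfl fun b _ => ?_
    rw [hc]
    simp only
    rw [← e_add, ← e_add]
    congr 1
    ring
  rw [hsum]
  have hcs : ‖∑ a ∈ A, e (h * x a) * F a‖ ^ 2 ≤ (A.card : ℝ) * ∑ a ∈ A, ‖F a‖ ^ 2 := by
    have h1 : ‖∑ a ∈ A, e (h * x a) * F a‖ ≤ ∑ a ∈ A, ‖F a‖ := by
      refine (norm_sum_le _ _).trans (le_of_eq (sum_congr rfl fun a _ => ?_))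
      rw [norm_mul, norm_e, one_mul]
    calc ‖∑ a ∈ A, e (h * x a) * F a‖ ^ 2 ≤ (∑ a ∈ A, ‖F a‖) ^ 2 :=
          pow_le_pow_left₀ (norm_nonneg _) h1 2
      _ ≤ (A.card : ℝ) * ∑ a ∈ A, ‖F a‖ ^ 2 := sq_sum_le_card_mul_sum_sq
  have hfull : ∑ a ∈ A, ‖F a‖ ^ 2 ≤ ∑ a ∈ range M, ‖F a‖ ^ 2 :=
    sum_le_sum_of_subset_of_nonneg hA fun _ _ _ => by positivity
  -- expansion
  have hexp : ((∑ a ∈ range M, ‖F a‖ ^ 2 : ℝ) : ℂ) =
      ∑ b ∈ B, ∑ b' ∈ B, c b * (starRingEnd ℂ) (c b') *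
        ∑ a ∈ range M, e (a * (h * β * ((b : ℝ) - b'))) := by
    push_cast
    have h1 : ∀ a : ℕ, ((‖F a‖ : ℂ)) ^ 2 = ∑ b ∈ B, ∑ b' ∈ B, c b * (starRingEnd ℂ) (c b') *
        e (a * (h * β * ((b : ℝ) - b'))) := by
      intro a
      have h2 : ((‖F a‖ : ℂ)) ^ 2 = F a * (starRingEnd ℂ) (F a) := by
        rw [Complex.mul_conj]
        rw [Complex.normSq_eq_norm_sq]
        push_cast
        rfl
      rw [h2]
      conv_lhs => rw [hF]
      simp only
      rw [map_sum, sum_mul_sum]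
      refine sum_congr rfl fun b _ => sum_congr rfl fun b' _ => ?_
      rw [map_mul, conj_e (a * (h * b' * β))]
      have h3 : e (a * (h * β * ((b : ℝ) - b'))) = e (a * (h * b * β)) * e (-(a * (h * b' * β))) := by
        rw [← e_add]
        congr 1
        ring
      rw [h3]
      ring
    rw [sum_congr rfl fun a _ => h1 a]
    rw [sum_comm]
    refine sum_congr rfl fun b _ => ?_
    rw [sum_comm]
    refine sum_congr rfl fun b' _ => ?_
    rw [mul_sum]
  have hrow : ∀ b ∈ B, ∑ b' ∈ B, ‖∑ a ∈ range M, e (a * (h * β * ((b : ℝ) - b')))‖ ≤ M + 8 * L := by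
    intro b hb
    rw [← add_sum_erase B _ hb]
    apply add_le_add
    · rw [sub_self, mul_zero]
      refine (norm_sum_le _ _).trans ?_
      rw [sum_congr rfl fun a _ => norm_e _]
      simp
    · have hbN := mem_range.1 (hB hb)
      have hne : ∀ b' ∈ B.erase b, ∀ p : ℤ, η ≤ |h * β * ((b : ℝ) - b') - p| := by
        intro b' hb' p
        rw [mem_erase] at hb'
        have hb'N := mem_range.1 (hB hb'.2)
        rcases lt_or_gt_of_ne hb'.1 with hlt | hlt
        · have h1 := hβ (h * (b - b')) (Nat.mul_pos (by omega) (by omega))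
            (lt_of_lt_of_le (Nat.mul_lt_mul_of_pos_left (by omega) (by omega)) hR) p
          rw [Nat.cast_mul, Nat.cast_sub hlt.le] at h1
          convert h1 using 2
          ring
        · have h1 := hβ (h * (b' - b)) (Nat.mul_pos (by omega) (by omega))
            (lt_of_lt_of_le (Nat.mul_lt_mul_of_pos_left (by omega) (by omega)) hR) (-p)
          rw [Nat.cast_mul, Nat.cast_sub hlt.le, ← abs_neg] at h1
          convert h1 using 2
          push_cast
          ring
      have hsp : ∀ b' ∈ B.erase b, ∀ b'' ∈ B.erase b, b' ≠ b'' → ∀ p : ℤ,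
          η ≤ |h * β * ((b : ℝ) - b') - h * β * ((b : ℝ) - b'') - p| := by
        intro b' hb' b'' hb'' hn p
        rw [mem_erase] at hb' hb''
        have hb'N := mem_range.1 (hB hb'.2)
        have hb''N := mem_range.1 (hB hb''.2)
        rcases lt_or_gt_of_ne hn with hlt | hlt
        · have h1 := hβ (h * (b'' - b')) (Nat.mul_pos (by omega) (by omega))
            (lt_of_lt_of_le (Nat.mul_lt_mul_of_pos_left (by omega) (by omega)) hR) p
          rw [Nat.cast_mul, Nat.cast_sub hlt.le] at h1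
          convert h1 using 2
          ring
        · have h1 := hβ (h * (b' - b'')) (Nat.mul_pos (by omega) (by omega))
            (lt_of_lt_of_le (Nat.mul_lt_mul_of_pos_left (by omega) (by omega)) hR) (-p)
          rw [Nat.cast_mul, Nat.cast_sub hlt.le, ← abs_neg] at h1
          convert h1 using 2
          push_cast
          ring
      have h1 := spaced (B.erase b) (fun b' => h * β * ((b : ℝ) - b')) η hη hη1 hne hsp
      calc ∑ b' ∈ B.erase b, ‖∑ a ∈ range M, e (a * (h * β * ((b : ℝ) - b')))‖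
          ≤ ∑ b' ∈ B.erase b, 4 * (1 / nd (h * β * ((b : ℝ) - b'))) := by
            refine sum_le_sum fun b' hb' => ?_
            have h2 : 0 < nd (h * β * ((b : ℝ) - b')) :=
              lt_of_lt_of_le hη (hne b' hb' _)
            refine (geo _ M h2).trans (le_of_eq ?_)
            ring
        _ = 4 * ∑ b' ∈ B.erase b, 1 / nd (h * β * ((b : ℝ) - b')) := by rw [mul_sum]
        _ ≤ 4 * (2 * L) := by gcongr
        _ = 8 * L := by ring
  have hcn : ∀ b, ‖c b‖ = 1 := fun b => norm_e _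
  have htot : ∑ a ∈ range M, ‖F a‖ ^ 2 ≤ (B.card : ℝ) * (M + 8 * L) := by
    have h1 : ∑ a ∈ range M, ‖F a‖ ^ 2 = ‖((∑ a ∈ range M, ‖F a‖ ^ 2 : ℝ) : ℂ)‖ := by
      rw [Complex.norm_real, Real.norm_eq_abs, abs_of_nonneg]
      exact sum_nonneg fun _ _ => by positivity
    rw [h1, hexp]
    calc ‖∑ b ∈ B, ∑ b' ∈ B, c b * (starRingEnd ℂ) (c b') *
          ∑ a ∈ range M, e (a * (h * β * ((b : ℝ) - b')))‖
        ≤ ∑ b ∈ B, ∑ b' ∈ B, ‖∑ a ∈ range M, e (a * (h * β * ((b : ℝ) - b')))‖ := by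
          refine (norm_sum_le _ _).trans (sum_le_sum fun b _ => ?_)
          refine (norm_sum_le _ _).trans (sum_le_sum fun b' _ => ?_)
          rw [norm_mul, norm_mul, RCLike.norm_conj, hcn, hcn, one_mul, one_mul]
      _ ≤ ∑ b ∈ B, (M + 8 * L) := sum_le_sum hrow
      _ = (B.card : ℝ) * (M + 8 * L) := by rw [sum_const, nsmul_eq_mul]
  calc ‖∑ a ∈ A, e (h * x a) * F a‖ ^ 2 ≤ (A.card : ℝ) * ∑ a ∈ A, ‖F a‖ ^ 2 := hcs
    _ ≤ (A.card : ℝ) * ((B.card : ℝ) * (M + 8 * L)) := by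
        gcongr
        exact hfull.trans htot
    _ = (A.card : ℝ) * B.card * (M + 8 * L) := by ring

end Pool.Agent.Run7.h566.BL
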