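import Mathlib
import Pool.Agent.Run7.h566.BL.Bil
import Pool.Agent.R544.EM.Block

/-! Places at which the digits of bilinear families are well distributed. -/

set_option autoImplicit false

open Finset

namespace Pool.Agent.Run7.h566.BL

open Pool.Agent.H469R2.NK (e norm_e e_add e_zero conj_e)
open Pool.Agent.R485.Mult (saw_bound indicator_eq)

/-- the discrepancy of a finite family -/
lemma disc_fam {ι : Type} (S : Finset ι) (t : ι → ℝ) (H : ℕ) (hH : 1 ≤ H) (T : ℝ)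
    (hT : ∀ h : ℕ, 1 ≤ h → h ≤ H → ‖∑ i ∈ S, e (h * t i)‖ ≤ T) (α β : ℝ) (h0 : 0 ≤ α)
    (h1 : α < β) (h2 : β ≤ 1) :
    |((S.filter (fun i => α ≤ Int.fract (t i) ∧ Int.fract (t i) < β)).card : ℝ) -
      (β - α) * S.card| ≤ 2 * (T * (1 + Real.log H) + 2 * (S.card / Real.sqrt H)) := by
  classical
  have hNR : (1 : ℝ) ≤ H := by exact_mod_cast hH
  have hN0 : (0 : ℝ) < H := by linarith
  have hT0 : 0 ≤ T := (norm_nonneg _).trans (hT 1 le_rfl hH)
  have hsq : (1 : ℝ) ≤ Real.sqrt H := by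
    rw [show (1 : ℝ) = Real.sqrt 1 by simp]
    exact Real.sqrt_le_sqrt hNR
  have hsq2 : Real.sqrt H * Real.sqrt H = H := Real.mul_self_sqrt hN0.le
  have key : ∀ γ : ℝ, |∑ i ∈ S, (Int.fract (t i - γ) - 1 / 2)| ≤
      T * (1 + Real.log H) + 2 * (S.card / Real.sqrt H) := by
    intro γ
    have h3 := saw_bound S (fun i => t i - γ) H hH (1 / Real.sqrt H) (by positivity)
      (by rw [div_le_one (by positivity)]; exact hsq)
    refine h3.trans ?_
    have h4 : ∀ h ∈ Icc 1 H, ‖∑ i ∈ S, e (h * (t i - γ))‖ / h ≤ T * (1 / h) := by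
      intro h hh
      rw [mem_Icc] at hh
      have h5 : ∑ i ∈ S, e (h * (t i - γ)) = e (-(h * γ)) * ∑ i ∈ S, e (h * t i) := by
        rw [mul_sum]
        refine sum_congr rfl fun i _ => ?_
        rw [← e_add]
        congr 1
        ring
      rw [h5, norm_mul, norm_e, one_mul, mul_one_div]
      gcongr
      exact hT h hh.1 hh.2
    have h6 : ∑ h ∈ Icc 1 H, ‖∑ i ∈ S, e (h * (t i - γ))‖ / h ≤ T * (1 + Real.log H) := by
      refine (sum_le_sum h4).trans ?_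
      rw [← mul_sum]
      exact mul_le_mul_of_nonneg_left (harm H) hT0
    have h7 : (S.card : ℝ) / (H * (1 / Real.sqrt H)) = S.card / Real.sqrt H := by
      have : (H : ℝ) * (1 / Real.sqrt H) = Real.sqrt H := by
        field_simp
        nlinarith
      rw [this]
    have h8 : (S.card : ℝ) * (1 / Real.sqrt H) = S.card / Real.sqrt H := by
      rw [mul_one_div]
    linarith
  have h3 : ((S.filter (fun i => α ≤ Int.fract (t i) ∧ Int.fract (t i) < β)).card : ℝ) -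
      (β - α) * S.card = ∑ i ∈ S, (Int.fract (t i - β) - 1 / 2) -
        ∑ i ∈ S, (Int.fract (t i - α) - 1 / 2) := by
    rw [← sum_sub_distrib]
    rw [← sum_congr rfl fun i _ => indicator_eq (t i) α β h0 h1 h2]
    rw [sum_sub_distrib, sum_const, card_filter]
    push_cast
    rw [nsmul_eq_mul]
    ring
  rw [h3]
  refine (abs_sub _ _).trans ?_
  linarith [key α, key β]

/-- **Good places for bilinear families.** -/
theorem place (b : ℕ) (hb : 2 ≤ b) (δ : ℝ) (hδ : 0 < δ) (hδ1 : δ ≤ 1) :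
    ∃ C : ℝ, 0 < C ∧ ∀ α : ℝ, Irrational α → ∀ M : ℕ, 1 ≤ M → ∀ q0 : ℕ, ∃ q, q0 ≤ q ∧
      ∀ A B : Finset ℕ, A ⊆ range M → B ⊆ range M →
      (M : ℝ) ^ (1 + δ) ≤ (A.card : ℝ) * B.card → ∀ x y : ℕ → ℝ, ∀ s t : ℝ, 0 ≤ s → s < t → t ≤ 1 →
      |(((A ×ˢ B).filter (fun z : ℕ × ℕ =>
          s ≤ Int.fract (((z.1 * z.2 : ℝ) * α + x z.1 + y z.2) * (b : ℝ) ^ q) ∧
          Int.fract (((z.1 * z.2 : ℝ) * α + x z.1 + y z.2) * (b : ℝ) ^ q) < t)).card : ℝ) -
        (t - s) * ((A.card : ℝ) * B.card)| ≤ C * (M : ℝ) ^ (-(δ / 16)) * ((A.card : ℝ) * B.card) := by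
  classical
  have hbR : (2 : ℝ) ≤ b := by exact_mod_cast hb
  have hb1 : 1 < b := by omega
  set c0 : ℝ := 1 + Real.log (2 * b * (b + 1)) with hc0
  have hc00 : 1 ≤ c0 := by
    rw [hc0]
    have : 0 ≤ Real.log (2 * b * (b + 1) : ℝ) := Real.log_nonneg (by nlinarith)
    linarith
  set C2 : ℝ := 1 + 16 * b * (b + 1) * (c0 + 16 / δ) with hC2
  have hC20 : 0 < C2 := by positivity
  set C3 : ℝ := Real.sqrt C2 with hC3
  have hC30 : 0 < C3 := Real.sqrt_pos.2 hC20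
  refine ⟨2 * (4 * C3 + 2), by positivity, fun α hα M hM q0 => ?_⟩
  have hMR : (1 : ℝ) ≤ M := by exact_mod_cast hM
  have hM0 : (0 : ℝ) < M := by linarith
  -- the number of frequencies
  set H : ℕ := ⌈(M : ℝ) ^ (δ / 8)⌉₊ with hH
  have hHl : (M : ℝ) ^ (δ / 8) ≤ H := Nat.le_ceil _
  have hM8 : (1 : ℝ) ≤ (M : ℝ) ^ (δ / 8) := Real.one_le_rpow hMR (by positivity)
  have hH1 : 1 ≤ H := by
    have : (1 : ℝ) ≤ H := hM8.trans hHl
    exact_mod_cast this
  have hHu : (H : ℝ) ≤ 2 * (M : ℝ) ^ (δ / 8) := by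
    have := Nat.ceil_lt_add_one (show 0 ≤ (M : ℝ) ^ (δ / 8) by positivity)
    linarith
  set n : ℕ := Nat.clog b (H * M) with hn
  have hn1 : H * M ≤ b ^ n := Nat.le_pow_clog hb1 _
  have hn2 : (b : ℝ) ^ n ≤ b * (H * M) := by
    rcases Nat.lt_or_ge 1 (H * M) with h1 | h1
    · have h2 := Nat.pow_pred_clog_lt_self hb1 h1
      have h3 : 1 ≤ n := Nat.clog_pos hb1 h1
      have h4 : (b : ℝ) ^ n = b * (b : ℝ) ^ (n - 1) := by
        rw [← pow_succ']
        congr 1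
        omega
      rw [h4]
      have h5 : ((b : ℝ)) ^ (n - 1) ≤ H * M := by
        have h6 : b ^ (n - 1) ≤ H * M := by
          rw [← Nat.pred_eq_sub_one]
          exact h2.le
        exact_mod_cast h6
      gcongr
    · have h2 : n = 0 := Nat.clog_of_right_le_one h1 b
      rw [h2, pow_zero]
      have h3 : (1 : ℝ) ≤ H := by exact_mod_cast hH1
      have h4 : (1 : ℝ) ≤ H * M := by nlinarith
      nlinarith
  obtain ⟨q, hq, hgood⟩ := Pool.Agent.R544.EM.exists_good α hα b hb n q0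
  refine ⟨q, hq, fun A B hA hB hcard x y s t hs hst ht => ?_⟩
  set P : ℝ := (A.card : ℝ) * B.card with hP
  have hP0 : 0 < P := lt_of_lt_of_le (Real.rpow_pos_of_pos hM0 _) hcard
  set η : ℝ := 1 / (((b : ℝ) + 1) * (b : ℝ) ^ n) with hη
  have hη0 : 0 < η := by positivity
  have hbn1 : (1 : ℝ) ≤ (b : ℝ) ^ n := one_le_pow₀ (by linarith)
  have hinv : 1 / η = ((b : ℝ) + 1) * (b : ℝ) ^ n := by rw [hη, one_div_one_div]
  have hη1 : η ≤ 1 := by
    rw [hη, div_le_one (by positivity)]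
    nlinarith
  have hinv1 : 1 ≤ 1 / η := by rw [hinv]; nlinarith
  set E : ℝ := 2 * b * (b + 1) * (M : ℝ) ^ (1 + δ / 8) with hE
  have hE0 : 0 < E := by positivity
  have hinvE : 1 / η ≤ E := by
    rw [hinv, hE]
    have h1 : (M : ℝ) ^ (1 + δ / 8) = M * (M : ℝ) ^ (δ / 8) := by
      rw [Real.rpow_add hM0, Real.rpow_one]
    rw [h1]
    calc ((b : ℝ) + 1) * (b : ℝ) ^ n ≤ (b + 1) * (b * (H * M)) := by gcongr
      _ ≤ (b + 1) * (b * ((2 * (M : ℝ) ^ (δ / 8)) * M)) := by gcongr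
      _ = _ := by ring
  have hlogE : 1 + Real.log E ≤ (c0 + 16 / δ) * (M : ℝ) ^ (δ / 8) := by
    have h1 : Real.log E = Real.log (2 * b * (b + 1)) + (1 + δ / 8) * Real.log M := by
      rw [hE, Real.log_mul (by positivity) (by positivity), Real.log_rpow hM0]
    have h2 : Real.log M ≤ (M : ℝ) ^ (δ / 8) / (δ / 8) :=
      Real.log_le_rpow_div hM0.le (by positivity)
    have h3 : 0 ≤ Real.log (M : ℝ) := Real.log_nonneg hMR
    have h4 : (1 + δ / 8) * Real.log M ≤ 2 * Real.log M := by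
      apply mul_le_mul_of_nonneg_right _ h3
      linarith
    have h5 : 2 * ((M : ℝ) ^ (δ / 8) / (δ / 8)) = 16 / δ * (M : ℝ) ^ (δ / 8) := by
      field_simp
      norm_num
    have h6 : c0 ≤ c0 * (M : ℝ) ^ (δ / 8) := by nlinarith
    rw [h1]
    calc 1 + (Real.log (2 * b * (b + 1)) + (1 + δ / 8) * Real.log M)
        = c0 + (1 + δ / 8) * Real.log M := by rw [hc0]; ring
      _ ≤ c0 + 2 * ((M : ℝ) ^ (δ / 8) / (δ / 8)) := by linarith
      _ ≤ (c0 + 16 / δ) * (M : ℝ) ^ (δ / 8) := by rw [h5]; linarith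
  have hbr : (M : ℝ) + 8 * (1 / η * (1 + Real.log (1 / η))) ≤ C2 * (M : ℝ) ^ (1 + δ / 4) := by
    have h1 : Real.log (1 / η) ≤ Real.log E := Real.log_le_log (by positivity) hinvE
    have h0 : 0 ≤ Real.log (1 / η) := Real.log_nonneg hinv1
    have h2 : 1 / η * (1 + Real.log (1 / η)) ≤ E * ((c0 + 16 / δ) * (M : ℝ) ^ (δ / 8)) := by
      apply mul_le_mul hinvE (by linarith) (by linarith) hE0.le
    have h3 : E * ((c0 + 16 / δ) * (M : ℝ) ^ (δ / 8)) =
        2 * b * (b + 1) * (c0 + 16 / δ) * (M : ℝ) ^ (1 + δ / 4) := by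
      have : (M : ℝ) ^ (1 + δ / 4) = (M : ℝ) ^ (1 + δ / 8) * (M : ℝ) ^ (δ / 8) := by
        rw [← Real.rpow_add hM0]
        congr 1
        ring
      rw [this, hE]
      ring
    have h4 : (M : ℝ) ≤ (M : ℝ) ^ (1 + δ / 4) := by
      conv_lhs => rw [← Real.rpow_one (M : ℝ)]
      exact Real.rpow_le_rpow_of_exponent_le hMR (by linarith)
    rw [hC2]
    nlinarith
  have hS : ∀ h : ℕ, 1 ≤ h → h ≤ H →
      ‖∑ z ∈ A ×ˢ B, e (h * (((z.1 * z.2 : ℝ) * α + x z.1 + y z.2) * (b : ℝ) ^ q))‖ ≤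
        P * (C3 * (M : ℝ) ^ (-(3 * δ / 8))) := by
    intro h hh1 hh2
    have h1 := bil M M (b ^ n) h ((b : ℝ) ^ q * α) η hη0 hη1 hgood hh1
      ((Nat.mul_le_mul_right M hh2).trans hn1) A B hA hB
      (fun a => x a * (b : ℝ) ^ q) (fun a => y a * (b : ℝ) ^ q)
    have h2 : ∑ z ∈ A ×ˢ B, e (h * ((z.1 * z.2 : ℝ) * ((b : ℝ) ^ q * α) + x z.1 * (b : ℝ) ^ q +
        y z.2 * (b : ℝ) ^ q)) =
        ∑ z ∈ A ×ˢ B, e (h * (((z.1 * z.2 : ℝ) * α + x z.1 + y z.2) * (b : ℝ) ^ q)) := by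
      refine sum_congr rfl fun z _ => ?_
      congr 1
      ring
    rw [h2, ← hP] at h1
    have h3 : P * (M + 8 * (1 / η * (1 + Real.log (1 / η)))) ≤
        (P * (C3 * (M : ℝ) ^ (-(3 * δ / 8)))) ^ 2 := by
      have h4 : (P * (C3 * (M : ℝ) ^ (-(3 * δ / 8)))) ^ 2 = P * (C2 * (P * (M : ℝ) ^ (-(3 * δ / 4)))) := by
        have e1 : C3 ^ 2 = C2 := Real.sq_sqrt hC20.le
        have e2 : ((M : ℝ) ^ (-(3 * δ / 8))) ^ 2 = (M : ℝ) ^ (-(3 * δ / 4)) := by
          rw [← Real.rpow_natCast, ← Real.rpow_mul hM0.le]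
          congr 1
          push_cast
          ring
        have e4 : (P * (C3 * (M : ℝ) ^ (-(3 * δ / 8)))) ^ 2 =
            P ^ 2 * (C3 ^ 2 * ((M : ℝ) ^ (-(3 * δ / 8))) ^ 2) := by ring
        rw [e4, e1, e2]
        ring
      rw [h4]
      apply mul_le_mul_of_nonneg_left _ hP0.le
      refine hbr.trans ?_
      apply mul_le_mul_of_nonneg_left _ hC20.le
      have e3 : (M : ℝ) ^ (1 + δ / 4) = (M : ℝ) ^ (1 + δ) * (M : ℝ) ^ (-(3 * δ / 4)) := by
        rw [← Real.rpow_add hM0]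
        congr 1
        ring
      rw [e3]
      gcongr
    exact (pow_le_pow_iff_left₀ (norm_nonneg _) (by positivity) two_ne_zero).1 (h1.trans h3)
  have hcardP : (((A ×ˢ B).card : ℕ) : ℝ) = P := by
    rw [card_product]
    push_cast
    rfl
  have hd := disc_fam (A ×ˢ B) (fun z : ℕ × ℕ => ((z.1 * z.2 : ℝ) * α + x z.1 + y z.2) * (b : ℝ) ^ q)
    H hH1 _ hS s t hs hst ht
  rw [hcardP] at hd
  refine hd.trans ?_
  have hlogH : 1 + Real.log H ≤ 4 * (M : ℝ) ^ (δ / 16) := by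
    have h1 : Real.log H ≤ Real.log (2 * (M : ℝ) ^ (δ / 8)) :=
      Real.log_le_log (by exact_mod_cast hH1) hHu
    rw [Real.log_mul (by norm_num) (by positivity), Real.log_rpow hM0] at h1
    have h2 : Real.log M ≤ (M : ℝ) ^ (δ / 16) / (δ / 16) :=
      Real.log_le_rpow_div hM0.le (by positivity)
    have h3 : δ / 8 * Real.log M ≤ 2 * (M : ℝ) ^ (δ / 16) := by
      have h4 : δ / 8 * Real.log M ≤ δ / 8 * ((M : ℝ) ^ (δ / 16) / (δ / 16)) := by gcongr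
      have h5 : δ / 8 * ((M : ℝ) ^ (δ / 16) / (δ / 16)) = 2 * (M : ℝ) ^ (δ / 16) := by
        field_simp
        norm_num
      linarith
    have h4 := Real.log_two_lt_d9
    have h5 : (1 : ℝ) ≤ (M : ℝ) ^ (δ / 16) := Real.one_le_rpow hMR (by positivity)
    linarith
  have hsq : (M : ℝ) ^ (δ / 16) ≤ Real.sqrt H := by
    rw [show (M : ℝ) ^ (δ / 16) = Real.sqrt ((M : ℝ) ^ (δ / 8)) by
      rw [Real.sqrt_eq_rpow, ← Real.rpow_mul hM0.le]
      congr 1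
      ring]
    exact Real.sqrt_le_sqrt hHl
  have hpos16 : (0 : ℝ) < (M : ℝ) ^ (δ / 16) := by positivity
  have h1 : P * (C3 * (M : ℝ) ^ (-(3 * δ / 8))) * (1 + Real.log H) ≤
      P * (4 * C3) * (M : ℝ) ^ (-(δ / 16)) := by
    have h2 : (M : ℝ) ^ (-(3 * δ / 8)) * (M : ℝ) ^ (δ / 16) ≤ (M : ℝ) ^ (-(δ / 16)) := by
      rw [← Real.rpow_add hM0]
      apply Real.rpow_le_rpow_of_exponent_le hMR
      linarith
    calc P * (C3 * (M : ℝ) ^ (-(3 * δ / 8))) * (1 + Real.log H)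
        ≤ P * (C3 * (M : ℝ) ^ (-(3 * δ / 8))) * (4 * (M : ℝ) ^ (δ / 16)) := by gcongr
      _ = P * (4 * C3) * ((M : ℝ) ^ (-(3 * δ / 8)) * (M : ℝ) ^ (δ / 16)) := by ring
      _ ≤ P * (4 * C3) * (M : ℝ) ^ (-(δ / 16)) := by gcongr
  have h2 : P / Real.sqrt H ≤ P * (M : ℝ) ^ (-(δ / 16)) := by
    rw [Real.rpow_neg hM0.le, ← div_eq_mul_inv]
    gcongr
  calc 2 * (P * (C3 * (M : ℝ) ^ (-(3 * δ / 8))) * (1 + Real.log H) + 2 * (P / Real.sqrt H))
      ≤ 2 * (P * (4 * C3) * (M : ℝ) ^ (-(δ / 16)) + 2 * (P * (M : ℝ) ^ (-(δ / 16)))) := by gcongr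
    _ = 2 * (4 * C3 + 2) * (M : ℝ) ^ (-(δ / 16)) * P := by ring

end Pool.Agent.Run7.h566.BL
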