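import Mathlib
import Pool.Agent.R544.EM.Block

/-! Words at good places: from well distributed long words to all short words. -/

set_option autoImplicit false

open Finset
open scoped Classical

namespace Pool.Agent.Run7.h566.BL

open Pool.Agent.R544.EM (word word_eq word_nonneg word_lt word_split)

/-- the words over the alphabet `W` -/
lemma alph (b : ℕ) (hb : 2 ≤ b) (k q : ℕ) (W : Finset ℤ) (hW : ∀ w ∈ W, 0 ≤ w ∧ w < (b : ℤ) ^ k) (l : ℕ) :
    ∃ A : Finset ℤ, A.card ≤ W.card ^ l ∧ (∀ v ∈ A, 0 ≤ v ∧ v < (b : ℤ) ^ (k * l)) ∧ ∀ y : ℝ,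
      (∀ i < l, word b k y (q + k * i) ∈ W) → word b (k * l) y q ∈ A := by
  classical
  induction l with
  | zero =>
    refine ⟨{0}, by simp, fun v hv => ?_, fun y _ => ?_⟩
    · rw [Finset.mem_singleton] at hv
      subst hv
      simp
    · rw [Finset.mem_singleton, word, mul_zero, pow_zero, Int.emod_one]
  | succ l ih =>
    obtain ⟨A, hA, hA1, hAy⟩ := ih
    refine ⟨(A ×ˢ W).image fun u => u.1 * (b : ℤ) ^ k + u.2, ?_, fun v hv => ?_, fun y hy => ?_⟩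
    · refine Finset.card_image_le.trans ?_
      rw [Finset.card_product, pow_succ]
      exact Nat.mul_le_mul_right _ hA
    · rw [Finset.mem_image] at hv
      obtain ⟨⟨u, w⟩, huw, rfl⟩ := hv
      rw [Finset.mem_product] at huw
      obtain ⟨h1, h2⟩ := hA1 u huw.1
      obtain ⟨h3, h4⟩ := hW w huw.2
      have hbk : (0 : ℤ) < (b : ℤ) ^ k := by positivity
      have e1 : (b : ℤ) ^ (k * (l + 1)) = (b : ℤ) ^ (k * l) * (b : ℤ) ^ k := by
        rw [← pow_add]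
        congr 1
      simp only at h1 h2 h3 h4 ⊢
      rw [e1]
      constructor
      · nlinarith
      · have h5 : u + 1 ≤ (b : ℤ) ^ (k * l) := h2
        nlinarith
    · rw [Finset.mem_image]
      refine ⟨(word b (k * l) y q, word b k y (q + k * l)), ?_, (word_split b hb k l y q).symm⟩
      rw [Finset.mem_product]
      exact ⟨hAy y fun i hi => hy i (by omega), hy l (by omega)⟩

/-- few members of a family miss a word at all of the places `q, q + k, …` -/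
lemma miss {ι : Type} [DecidableEq ι] (S : Finset ι) (t : ι → ℝ) (b : ℕ) (hb : 2 ≤ b) (k l q : ℕ) (U : ℝ)
    (hU : 0 ≤ U)
    (h : ∀ v : ℤ, 0 ≤ v → v < (b : ℤ) ^ (k * l) →
      ((S.filter fun i => word b (k * l) (t i) q = v).card : ℝ) ≤ U) :
    ((S.filter fun i => ∃ w : ℤ, 0 ≤ w ∧ w < (b : ℤ) ^ k ∧ ∀ j < l, word b k (t i) (q + k * j) ≠ w).card : ℝ) ≤
      (b : ℝ) ^ k * (((b : ℝ) ^ k - 1) ^ l * U) := by
  classical
  have hbk : (0 : ℤ) < (b : ℤ) ^ k := by positivity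
  set I : Finset ℤ := Finset.Ico (0 : ℤ) ((b : ℤ) ^ k) with hI
  have hIcard : I.card = b ^ k := by
    rw [hI, Int.card_Ico, sub_zero]
    exact_mod_cast Int.toNat_natCast (b ^ k)
  have key : ∀ w ∈ I, ((S.filter fun i => ∀ j < l, word b k (t i) (q + k * j) ≠ w).card : ℝ) ≤
      ((b : ℝ) ^ k - 1) ^ l * U := by
    intro w hw
    obtain ⟨A, hA, hA1, hAy⟩ := alph b hb k q (I.erase w)
      (fun v hv => by
        have := Finset.mem_of_mem_erase hv
        rw [hI, Finset.mem_Ico] at this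
        exact this) l
    have hsub : (S.filter fun i => ∀ j < l, word b k (t i) (q + k * j) ≠ w) ⊆
        A.biUnion fun v => S.filter fun i => word b (k * l) (t i) q = v := by
      intro i hi
      rw [mem_filter] at hi
      rw [mem_biUnion]
      refine ⟨word b (k * l) (t i) q, hAy (t i) fun j hj => ?_, ?_⟩
      · rw [mem_erase, hI, mem_Ico]
        exact ⟨hi.2 j hj, word_nonneg b hb k _ _, word_lt b hb k _ _⟩
      · rw [mem_filter]
        exact ⟨hi.1, rfl⟩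
    have h1 : ((S.filter fun i => ∀ j < l, word b k (t i) (q + k * j) ≠ w).card : ℝ) ≤ A.card * U := by
      have h2 : ((S.filter fun i => ∀ j < l, word b k (t i) (q + k * j) ≠ w).card : ℝ) ≤
          ∑ v ∈ A, ((S.filter fun i => word b (k * l) (t i) q = v).card : ℝ) := by
        exact_mod_cast (card_le_card hsub).trans card_biUnion_le
      refine h2.trans ?_
      refine (sum_le_card_nsmul A _ U fun v hv => h v (hA1 v hv).1 (hA1 v hv).2).trans (le_of_eq ?_)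
      rw [nsmul_eq_mul]
    refine h1.trans (mul_le_mul_of_nonneg_right ?_ hU)
    have h3 : (I.erase w).card = b ^ k - 1 := by rw [card_erase_of_mem hw, hIcard]
    rw [h3] at hA
    have h4 : ((b ^ k - 1 : ℕ) : ℝ) = (b : ℝ) ^ k - 1 := by
      rw [Nat.cast_sub (Nat.one_le_pow _ _ (by omega))]
      push_cast
      ring
    rw [← h4]
    exact_mod_cast hA
  have hsub : (S.filter fun i => ∃ w : ℤ, 0 ≤ w ∧ w < (b : ℤ) ^ k ∧ ∀ j < l, word b k (t i) (q + k * j) ≠ w) ⊆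
      I.biUnion fun w => S.filter fun i => ∀ j < l, word b k (t i) (q + k * j) ≠ w := by
    intro i hi
    rw [mem_filter] at hi
    obtain ⟨hi1, w, hw1, hw2, hw3⟩ := hi
    rw [mem_biUnion]
    exact ⟨w, by rw [hI, mem_Ico]; exact ⟨hw1, hw2⟩, by rw [mem_filter]; exact ⟨hi1, hw3⟩⟩
  have h2 : ((S.filter fun i => ∃ w : ℤ, 0 ≤ w ∧ w < (b : ℤ) ^ k ∧
      ∀ j < l, word b k (t i) (q + k * j) ≠ w).card : ℝ) ≤
      ∑ w ∈ I, ((S.filter fun i => ∀ j < l, word b k (t i) (q + k * j) ≠ w).card : ℝ) := by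
    exact_mod_cast (card_le_card hsub).trans card_biUnion_le
  refine h2.trans ((sum_le_card_nsmul I _ _ key).trans (le_of_eq ?_))
  rw [nsmul_eq_mul, hIcard]
  push_cast
  rfl

/-- from arbitrarily late places to infinitely often -/
lemma inf_often {ι : Type} [DecidableEq ι] (S : Finset ι) (t : ι → ℝ) (b k l : ℕ) (E : ℝ)
    (h : ∀ q0 : ℕ, ∃ q, q0 ≤ q ∧ ((S.filter fun i => ∃ w : ℤ, 0 ≤ w ∧ w < (b : ℤ) ^ k ∧
      ∀ j < l, word b k (t i) (q + k * j) ≠ w).card : ℝ) ≤ E) :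
    ((S.filter fun i => ¬ ∀ w : ℤ, 0 ≤ w → w < (b : ℤ) ^ k →
      {q : ℕ | word b k (t i) q = w}.Infinite).card : ℝ) ≤ E := by
  classical
  have h1 : ∀ i, ∃ B : ℕ, (¬ ∀ w : ℤ, 0 ≤ w → w < (b : ℤ) ^ k →
      {q : ℕ | word b k (t i) q = w}.Infinite) → ∃ w : ℤ, 0 ≤ w ∧ w < (b : ℤ) ^ k ∧
      ∀ q, B ≤ q → word b k (t i) q ≠ w := by
    intro i
    by_cases hi : ∀ w : ℤ, 0 ≤ w → w < (b : ℤ) ^ k → {q : ℕ | word b k (t i) q = w}.Infinite
    · exact ⟨0, fun hh => absurd hi hh⟩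
    · push Not at hi
      obtain ⟨w, hw1, hw2, hw3⟩ := hi
      obtain ⟨B, hB⟩ := hw3.bddAbove
      refine ⟨B + 1, fun _ => ⟨w, hw1, hw2, fun q hq he => ?_⟩⟩
      have := hB he
      omega
  choose B hB using h1
  obtain ⟨q, hq, hE⟩ := h (S.sup B)
  refine le_trans ?_ hE
  norm_cast
  refine card_le_card fun i hi => ?_
  rw [mem_filter] at hi ⊢
  refine ⟨hi.1, ?_⟩
  obtain ⟨w, hw1, hw2, hw3⟩ := hB i hi.2
  exact ⟨w, hw1, hw2, fun j _ => hw3 _ (((le_sup hi.1).trans hq).trans (Nat.le_add_right _ _))⟩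

/-- the number of the digits to be looked at -/
lemma numbers (b : ℕ) (hb : 2 ≤ b) (k : ℕ) (hk : 1 ≤ k) (κ : ℝ) (hκ : 0 < κ) :
    ∃ c C : ℝ, 0 < c ∧ 0 < C ∧ ∀ M : ℕ, 1 ≤ M → ∃ l : ℕ, ∀ D : ℝ, 0 ≤ D →
      (b : ℝ) ^ k * (((b : ℝ) ^ k - 1) ^ l * (1 / (b : ℝ) ^ (k * l) + D * (M : ℝ) ^ (-κ))) ≤
        C * (1 + D) * (M : ℝ) ^ (-c) := by
  have hbR : (2 : ℝ) ≤ b := by exact_mod_cast hb
  have hb0 : (0 : ℝ) < b := by linarith
  set β : ℝ := (b : ℝ) ^ k with hβ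
  have hβ2 : 2 ≤ β := by
    calc (2 : ℝ) ≤ b := hbR
      _ = (b : ℝ) ^ 1 := (pow_one _).symm
      _ ≤ (b : ℝ) ^ k := pow_le_pow_right₀ (by linarith) hk
  have hβ0 : 0 < β := by linarith
  have hlβ : 0 < Real.log β := Real.log_pos (by linarith)
  have hlβ1 : Real.log β ≤ β := (Real.log_le_sub_one_of_pos hβ0).trans (by linarith)
  set c : ℝ := min (κ / 2) (κ / (2 * β * Real.log β)) with hc
  have hc0 : 0 < c := lt_min (by positivity) (by positivity)
  refine ⟨c, 3 * β, hc0, by positivity, fun M hM => ?_⟩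
  have hMR : (1 : ℝ) ≤ M := by exact_mod_cast hM
  have hM0 : (0 : ℝ) < M := by linarith
  have hlM : 0 ≤ Real.log M := Real.log_nonneg hMR
  set z : ℝ := κ * Real.log M / (2 * Real.log β) with hz
  have hz0 : 0 ≤ z := by positivity
  refine ⟨⌊z⌋₊, fun D hD => ?_⟩
  set l := ⌊z⌋₊ with hl
  have hl1 : (l : ℝ) ≤ z := Nat.floor_le hz0
  have hl2 : z < l + 1 := Nat.lt_floor_add_one z
  have hkl : (b : ℝ) ^ (k * l) = β ^ l := by rw [hβ, pow_mul]
  rw [hkl]
  -- the length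
  have h1 : β ^ l ≤ (M : ℝ) ^ (κ / 2) := by
    have h2 : β ^ l = Real.exp (l * Real.log β) := by
      rw [Real.exp_nat_mul, Real.exp_log hβ0]
    have h3 : (M : ℝ) ^ (κ / 2) = Real.exp (Real.log M * (κ / 2)) := Real.rpow_def_of_pos hM0 _
    rw [h2, h3, Real.exp_le_exp]
    calc (l : ℝ) * Real.log β ≤ z * Real.log β := by gcongr
      _ = Real.log M * (κ / 2) := by rw [hz]; field_simp
  -- the share of the words which miss a word
  have h2 : (β - 1) ^ l * (1 / β ^ l) ≤ 3 * (M : ℝ) ^ (-c) := by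
    have e1 : (β - 1) ^ l * (1 / β ^ l) = (1 - 1 / β) ^ l := by
      rw [mul_one_div, ← div_pow]
      congr 1
      field_simp
    have e2 : (1 - 1 / β) ^ l ≤ Real.exp (-(l / β)) := by
      have : 1 - 1 / β ≤ Real.exp (-(1 / β)) := by
        have := Real.add_one_le_exp (-(1 / β))
        linarith
      calc (1 - 1 / β) ^ l ≤ (Real.exp (-(1 / β))) ^ l := by
            apply pow_le_pow_left₀ _ this
            rw [sub_nonneg, div_le_one hβ0]
            linarith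
        _ = Real.exp (-(l / β)) := by
            rw [← Real.exp_nat_mul]
            congr 1
            ring
    have e3 : Real.exp (-(l / β)) ≤ Real.exp 1 * (M : ℝ) ^ (-c) := by
      rw [Real.rpow_def_of_pos hM0, ← Real.exp_add, Real.exp_le_exp]
      have h3 : c ≤ κ / (2 * β * Real.log β) := min_le_right _ _
      have h4 : c * Real.log M ≤ z / β := by
        calc c * Real.log M ≤ κ / (2 * β * Real.log β) * Real.log M := by gcongr
          _ = z / β := by rw [hz]; field_simp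
      have h5 : z / β ≤ (l + 1) / β := by gcongr
      have h6 : ((l : ℝ) + 1) / β = l / β + 1 / β := by ring
      have h7 : 1 / β ≤ 1 := by rw [div_le_one hβ0]; linarith
      nlinarith
    have e4 : Real.exp 1 < 3 := lt_trans Real.exp_one_lt_d9 (by norm_num)
    rw [e1]
    refine e2.trans (e3.trans ?_)
    gcongr
  have h3 : (β - 1) ^ l * (D * (M : ℝ) ^ (-κ)) ≤ D * (M : ℝ) ^ (-c) := by
    have e1 : (β - 1) ^ l ≤ β ^ l := pow_le_pow_left₀ (by linarith) (by linarith) l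
    have e2 : (M : ℝ) ^ (κ / 2) * (M : ℝ) ^ (-κ) ≤ (M : ℝ) ^ (-c) := by
      rw [← Real.rpow_add hM0]
      apply Real.rpow_le_rpow_of_exponent_le hMR
      have : c ≤ κ / 2 := min_le_left _ _
      linarith
    calc (β - 1) ^ l * (D * (M : ℝ) ^ (-κ)) ≤ (M : ℝ) ^ (κ / 2) * (D * (M : ℝ) ^ (-κ)) := by
          gcongr
          exact e1.trans h1
      _ = D * ((M : ℝ) ^ (κ / 2) * (M : ℝ) ^ (-κ)) := by ring
      _ ≤ D * (M : ℝ) ^ (-c) := by gcongr
  have hMc : 0 < (M : ℝ) ^ (-c) := by positivity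
  calc β * ((β - 1) ^ l * (1 / β ^ l + D * (M : ℝ) ^ (-κ)))
      = β * ((β - 1) ^ l * (1 / β ^ l) + (β - 1) ^ l * (D * (M : ℝ) ^ (-κ))) := by ring
    _ ≤ β * (3 * (M : ℝ) ^ (-c) + D * (M : ℝ) ^ (-c)) := by gcongr
    _ ≤ 3 * β * (1 + D) * (M : ℝ) ^ (-c) := by
        have : 0 ≤ β * D * (M : ℝ) ^ (-c) := by positivity
        nlinarith

/-- **Every short word at good places.** -/
theorem all_words {ι : Type} [DecidableEq ι] (b : ℕ) (hb : 2 ≤ b) (k : ℕ) (hk : 1 ≤ k) (κ : ℝ) (hκ : 0 < κ) :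
    ∃ c C : ℝ, 0 < c ∧ 0 < C ∧ ∀ (M : ℕ), 1 ≤ M → ∀ (S : Finset ι) (t : ι → ℝ) (P D : ℝ), 0 ≤ P → 0 ≤ D →
      (∀ q0 : ℕ, ∃ q, q0 ≤ q ∧ ∀ (K : ℕ) (v : ℤ), 0 ≤ v → v < (b : ℤ) ^ K →
        ((S.filter fun i => word b K (t i) q = v).card : ℝ) ≤ P * (1 / (b : ℝ) ^ K + D * (M : ℝ) ^ (-κ))) →
      ((S.filter fun i => ¬ ∀ w : ℤ, 0 ≤ w → w < (b : ℤ) ^ k →
        {q : ℕ | word b k (t i) q = w}.Infinite).card : ℝ) ≤ C * (1 + D) * (M : ℝ) ^ (-c) * P := by
  obtain ⟨c, C, hc, hC, h⟩ := numbers b hb k hk κ hκ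
  refine ⟨c, C, hc, hC, fun M hM S t P D hP hD hq => ?_⟩
  obtain ⟨l, hl⟩ := h M hM
  have hMR : (1 : ℝ) ≤ M := by exact_mod_cast hM
  have hM0 : (0 : ℝ) < M := by linarith
  have hb0 : (0 : ℝ) < b := by positivity
  apply inf_often S t b k l
  intro q0
  obtain ⟨q, hq1, hq2⟩ := hq q0
  refine ⟨q, hq1, ?_⟩
  refine (miss S t b hb k l q _ (by positivity) (hq2 (k * l))).trans ?_
  calc (b : ℝ) ^ k * (((b : ℝ) ^ k - 1) ^ l * (P * (1 / (b : ℝ) ^ (k * l) + D * (M : ℝ) ^ (-κ))))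
      = ((b : ℝ) ^ k * (((b : ℝ) ^ k - 1) ^ l * (1 / (b : ℝ) ^ (k * l) + D * (M : ℝ) ^ (-κ)))) * P := by
        ring
    _ ≤ (C * (1 + D) * (M : ℝ) ^ (-c)) * P := mul_le_mul_of_nonneg_right (hl D hD) hP

end Pool.Agent.Run7.h566.BL
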